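import Pool.Agent.Lib.MP_6d95fe_co.H4Del6

/-- Local theorem with a radius that does not depend on the separation. `T` is a family of
non-empty sets of diameter at most `D` in Euclidean `d`-space, pairwise at Hausdorff distance at
least `r > 0`, whose union has covering radius at most `R`. The number `m` is at least `3 d²`, or
at least `l + 3 d` where every finite group of isometries has an abelian normal subgroup such that
chains of subgroups of the quotient have length at most `l`. If the clusters of radius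
`(3 m + 8 d + 9) (R + D)` are pairwise congruent, the symmetry group of `T` is transitive. -/
theorem Pool.Agent.Variants.MP_6d95fe_co.ChainRadius.result (d m : ℕ)
    (hm : 3 * d ^ 2 ≤ m ∨ ∃ l : ℕ, l + 3 * d ≤ m ∧
      ∀ G : Subgroup (EuclideanSpace ℝ (Fin d) ≃ᵢ EuclideanSpace ℝ (Fin d)), Finite G →
        ∃ (A : Subgroup G) (_ : A.Normal), (∀ a ∈ A, ∀ b ∈ A, a * b = b * a) ∧
          Order.krullDim (Subgroup (G ⧸ A)) ≤ l)
    (T : Set (Set (EuclideanSpace ℝ (Fin d)))) (r D R : ℝ) (hr : 0 < r) (hR : 0 < R + D)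
    (hne : ∀ P ∈ T, P.Nonempty) (hD : ∀ P ∈ T, ∀ p ∈ P, ∀ q ∈ P, dist p q ≤ D)
    (hsep : ∀ P ∈ T, ∀ Q ∈ T, P ≠ Q → r ≤ Metric.hausdorffDist P Q)
    (hcov : ∀ z, ∃ P ∈ T, ∃ p ∈ P, dist z p ≤ R)
    (hloc : ∀ P ∈ T, ∀ Q ∈ T, ∃ g : EuclideanSpace ℝ (Fin d) ≃ᵢ EuclideanSpace ℝ (Fin d),
      g '' P = Q ∧
      (fun S => g '' S) ''
          {S ∈ T | ∃ p ∈ P, ∃ s ∈ S, dist p s ≤ (3 * (m : ℝ) + 8 * d + 9) * (R + D)} =
        {S ∈ T | ∃ q ∈ Q, ∃ s ∈ S, dist q s ≤ (3 * (m : ℝ) + 8 * d + 9) * (R + D)}) :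
    ∀ P ∈ T, ∀ Q ∈ T, ∃ g : EuclideanSpace ℝ (Fin d) ≃ᵢ EuclideanSpace ℝ (Fin d),
      g '' P = Q ∧ (fun S => g '' S) '' T = T :=
  Pool.Agent.Lib.MP_6d95fe_co.Del.main' (m := m)
    (by simpa only [Pool.Agent.Lib.MP_6d95fe_co.Del.Steps, finrank_euclideanSpace_fin] using hm)
    T r D R hr hR hne hD hsep hcov (by simp) hloc
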